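import Mathlib

set_option autoImplicit false

/-!
A terminating very-well-poised sum (the case a = 1/3, c = 1/2), proved by a
Wilf-Zeilberger telescoping.
-/

namespace Pool.Agent.Helper2.WP54

open Finset

/-- the part of the summand which does not depend on `n` -/
noncomputable def u (b : ℚ) (k : ℕ) : ℚ :=
  ∏ j ∈ range k, ((1 / 3 + (j : ℚ)) * (b + j) * (1 / 2 + j)) /
    ((1 + (j : ℚ)) * (4 / 3 - b + j) * (5 / 6 + j))

/-- the part of the summand which depends on `n` -/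
noncomputable def v (n : ℕ) (k : ℕ) : ℚ :=
  ∏ j ∈ range k, ((j : ℚ) - n) / (4 / 3 + (n : ℚ) + j)

lemma u_succ (b : ℚ) (k : ℕ) : u b (k + 1) = u b k * (((1 / 3 + (k : ℚ)) * (b + k) * (1 / 2 + k)) /
    ((1 + (k : ℚ)) * (4 / 3 - b + k) * (5 / 6 + k))) := by
  unfold u; rw [prod_range_succ]

lemma v_succ (n k : ℕ) : v n (k + 1) = v n k * (((k : ℚ) - n) / (4 / 3 + (n : ℚ) + k)) := by
  unfold v; rw [prod_range_succ]

lemma v_zero (n : ℕ) : v n 0 = 1 := by simp [v]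
lemma u_zero (b : ℚ) : u b 0 = 1 := by simp [u]

/-- relation between `v (n+1)` and `v n` -/
lemma v_shift (n k : ℕ) :
    v (n + 1) k * (((n : ℚ) + 1 - k) * (4 / 3 + (n : ℚ) + k)) =
      v n k * (((n : ℚ) + 1) * (4 / 3 + n)) := by
  induction k with
  | zero => simp [v_zero]
  | succ k ih =>
    rw [v_succ, v_succ]
    have h1 : (4 / 3 + (n : ℚ) + k) ≠ 0 := by positivity
    have h2 : (4 / 3 + ((n + 1 : ℕ) : ℚ) + k) ≠ 0 := by positivity
    have h3 : (4 / 3 + ((n : ℚ) + 1) + k) ≠ 0 := by positivity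
    have e1 : v (n + 1) k * (((k : ℚ) - ((n + 1 : ℕ) : ℚ)) / (4 / 3 + ((n + 1 : ℕ) : ℚ) + k)) *
        (((n : ℚ) + 1 - ((k + 1 : ℕ) : ℚ)) * (4 / 3 + (n : ℚ) + ((k + 1 : ℕ) : ℚ))) =
        (v (n + 1) k * (((n : ℚ) + 1 - k) * (4 / 3 + (n : ℚ) + k))) *
          (((k : ℚ) - n) / (4 / 3 + (n : ℚ) + k)) := by
      push_cast
      field_simp
      ring
    rw [e1, ih]
    ring

lemma telescoping (b : ℚ) (n : ℕ) (hb : ∀ j : ℕ, (4 / 3 - b + j) ≠ 0) (m : ℕ) (hm : m ≤ n) :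
    ∑ k ∈ range (m + 1), (6 * (k : ℚ) + 1) * u b k *
        (v (n + 1) k * ((4 / 3 - b + n) * (5 / 6 + n)) -
          v n k * ((4 / 3 + (n : ℚ)) * (5 / 6 - b + n))) =
      (6 * (m : ℚ) + 1) * u b m * v n m * ((4 / 3 + (n : ℚ)) * (1 / 3 + m) * (b + m) * (1 / 2 + m)) /
        ((1 / 3 + 2 * (m : ℚ)) * (n + 4 / 3 + m)) := by
  induction m with
  | zero =>
    simp only [zero_add, range_one, sum_singleton, u_zero, v_zero]
    have h1 : ((n : ℚ) + 4 / 3 + 0) ≠ 0 := by positivity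
    have h1' : ((n : ℚ) + 4 / 3) ≠ 0 := by positivity
    push_cast
    field_simp
    ring
  | succ m ih =>
    rw [sum_range_succ, ih (by omega)]
    have hnm : ((n : ℚ) - m) ≠ 0 := by
      have : (m : ℚ) < n := by exact_mod_cast (by omega : m < n)
      exact sub_ne_zero.mpr (ne_of_gt this)
    have h43 : (4 / 3 + (n : ℚ) + ((m + 1 : ℕ) : ℚ)) ≠ 0 := by positivity
    have h1 : ((n : ℚ) + 4 / 3 + m) ≠ 0 := by positivity
    have h1a : (4 / 3 + (n : ℚ) + m) ≠ 0 := by positivity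
    have h2 : ((n : ℚ) + 4 / 3 + ((m + 1 : ℕ) : ℚ)) ≠ 0 := by positivity
    have h3 : (1 / 3 + 2 * (m : ℚ)) ≠ 0 := by positivity
    have h4 : (1 / 3 + 2 * ((m + 1 : ℕ) : ℚ)) ≠ 0 := by positivity
    have h5 := hb m
    have h6 : (1 + (m : ℚ)) ≠ 0 := by positivity
    have h7 : (5 / 6 + (m : ℚ)) ≠ 0 := by positivity
    have hv : v (n + 1) (m + 1) = v n (m + 1) * (((n : ℚ) + 1) * (4 / 3 + n)) /
        (((n : ℚ) - m) * (4 / 3 + (n : ℚ) + ((m + 1 : ℕ) : ℚ))) := by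
      rw [eq_div_iff (mul_ne_zero hnm h43)]
      have := v_shift n (m + 1)
      rw [← this]
      push_cast
      ring
    rw [hv, v_succ, u_succ]
    have h8 : (1 / 3 + 2 * ((m : ℚ) + 1)) ≠ 0 := by positivity
    have h9 : (4 / 3 + (n : ℚ) + ((m : ℚ) + 1)) ≠ 0 := by positivity
    have h10 : ((n : ℚ) + 4 / 3 + ((m : ℚ) + 1)) ≠ 0 := by positivity
    clear ih h43 h2 h4 hv
    push_cast
    obtain ⟨β, hβ⟩ : ∃ β : ℚ, β = 4 / 3 - b + m := ⟨_, rfl⟩
    have hb' : b = 4 / 3 + m - β := by linarith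
    rw [← hβ] at h5 ⊢
    generalize u b m = U
    generalize v n m = V
    clear hb
    subst hb'
    field_simp
    ring

lemma rec_sum (b : ℚ) (n : ℕ) (hb : ∀ j : ℕ, (4 / 3 - b + j) ≠ 0) :
    (∑ k ∈ range (n + 2), (6 * (k : ℚ) + 1) * u b k * v (n + 1) k) *
        ((4 / 3 - b + n) * (5 / 6 + n)) =
      (∑ k ∈ range (n + 1), (6 * (k : ℚ) + 1) * u b k * v n k) *
        ((4 / 3 + (n : ℚ)) * (5 / 6 - b + n)) := by
  have ht := telescoping b n hb n le_rfl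
  have e : ∑ k ∈ range (n + 1), (6 * (k : ℚ) + 1) * u b k *
        (v (n + 1) k * ((4 / 3 - b + n) * (5 / 6 + n)) -
          v n k * ((4 / 3 + (n : ℚ)) * (5 / 6 - b + n))) =
      (∑ k ∈ range (n + 1), (6 * (k : ℚ) + 1) * u b k * v (n + 1) k) *
        ((4 / 3 - b + n) * (5 / 6 + n)) -
      (∑ k ∈ range (n + 1), (6 * (k : ℚ) + 1) * u b k * v n k) *
        ((4 / 3 + (n : ℚ)) * (5 / 6 - b + n)) := by
    rw [sum_mul, sum_mul, ← sum_sub_distrib]
    refine sum_congr rfl fun k _ => ?_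
    ring
  rw [e] at ht
  have e2 : (6 * ((n + 1 : ℕ) : ℚ) + 1) * u b (n + 1) * v (n + 1) (n + 1) *
        ((4 / 3 - b + n) * (5 / 6 + n)) = -((6 * (n : ℚ) + 1) * u b n * v n n *
        ((4 / 3 + (n : ℚ)) * (1 / 3 + n) * (b + n) * (1 / 2 + n)) /
        ((1 / 3 + 2 * (n : ℚ)) * (n + 4 / 3 + n))) := by
    have hvn : v (n + 1) n * (4 / 3 + (n : ℚ) + n) = v n n * (((n : ℚ) + 1) * (4 / 3 + n)) := by
      have := v_shift n n
      rw [← this]; ring
    have h1 : (4 / 3 + (n : ℚ) + n) ≠ 0 := by positivity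
    have hv' : v (n + 1) n = v n n * (((n : ℚ) + 1) * (4 / 3 + n)) / (4 / 3 + (n : ℚ) + n) := by
      rw [eq_div_iff h1, hvn]
    rw [v_succ, u_succ, hv']
    have h5 := hb n
    have h6 : (1 + (n : ℚ)) ≠ 0 := by positivity
    have h7 : (5 / 6 + (n : ℚ)) ≠ 0 := by positivity
    have h8 : (1 / 3 + 2 * (n : ℚ)) ≠ 0 := by positivity
    have h9 : ((n : ℚ) + 4 / 3 + n) ≠ 0 := by positivity
    have h10 : (4 / 3 + ((n : ℚ) + 1) + n) ≠ 0 := by positivity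
    push_cast
    obtain ⟨β, hβ⟩ : ∃ β : ℚ, β = 4 / 3 - b + n := ⟨_, rfl⟩
    have hb' : b = 4 / 3 + n - β := by linarith
    rw [← hβ] at h5 ⊢
    generalize u b n = U
    generalize v n n = V
    subst hb'
    field_simp
    ring
  rw [sum_range_succ, add_mul, e2]
  linarith

/-- closed form of the terminating sum -/
lemma closed_form (b : ℚ) (hb : ∀ j : ℕ, (4 / 3 - b + j) ≠ 0) (n : ℕ) :
    ∑ k ∈ range (n + 1), (6 * (k : ℚ) + 1) * u b k * v n k =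
      ∏ j ∈ range n, ((4 / 3 + (j : ℚ)) * (5 / 6 - b + j)) / ((4 / 3 - b + j) * (5 / 6 + j)) := by
  induction n with
  | zero => simp [u_zero, v_zero]
  | succ n ih =>
    rw [prod_range_succ, ← ih]
    have h5 := hb n
    have h7 : (5 / 6 + (n : ℚ)) ≠ 0 := by positivity
    rw [← mul_div_assoc, eq_div_iff (mul_ne_zero h5 h7)]
    exact rec_sum b n hb

/-- the special case used below -/
lemma special (n : ℕ) :
    ∑ k ∈ range (n + 1), (6 * (k : ℚ) + 1) *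
      ∏ j ∈ range k, ((3 * (j : ℚ) + 1) * (2 * j + 1) * ((3 * j + 1) ^ 2 - (3 * n + 1) ^ 2)) /
        ((j + 1) * (6 * j + 5) * (9 * ((j : ℚ) + 1) ^ 2 - (3 * n + 1) ^ 2)) = 3 * n + 1 := by
  have hb : ∀ j : ℕ, (4 / 3 - ((n : ℚ) + 2 / 3) + j) ≠ 0 := by
    intro j h
    have h' : ((3 * (j : ℤ) + 2 - 3 * n : ℤ) : ℚ) = 0 := by
      push_cast
      linarith
    have : (3 * (j : ℤ) + 2 - 3 * n : ℤ) = 0 := by exact_mod_cast h'
    omega
  have h := closed_form ((n : ℚ) + 2 / 3) hb n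
  have e1 : ∀ k : ℕ, (6 * (k : ℚ) + 1) *
      ∏ j ∈ range k, ((3 * (j : ℚ) + 1) * (2 * j + 1) * ((3 * j + 1) ^ 2 - (3 * n + 1) ^ 2)) /
        ((j + 1) * (6 * j + 5) * (9 * ((j : ℚ) + 1) ^ 2 - (3 * n + 1) ^ 2)) =
      (6 * (k : ℚ) + 1) * u ((n : ℚ) + 2 / 3) k * v n k := by
    intro k
    rw [mul_assoc]
    congr 1
    unfold u v
    rw [← prod_mul_distrib]
    refine prod_congr rfl fun j _ => ?_
    have h5 := hb j
    have h6 : (1 + (j : ℚ)) ≠ 0 := by positivity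
    have h7 : (5 / 6 + (j : ℚ)) ≠ 0 := by positivity
    have h8 : (4 / 3 + (n : ℚ) + j) ≠ 0 := by positivity
    have h9 : (9 * ((j : ℚ) + 1) ^ 2 - (3 * n + 1) ^ 2) ≠ 0 := by
      have : (9 * ((j : ℚ) + 1) ^ 2 - (3 * n + 1) ^ 2) =
        9 * ((4 / 3 - ((n : ℚ) + 2 / 3) + j) * (4 / 3 + (n : ℚ) + j)) := by ring
      rw [this]
      exact mul_ne_zero (by norm_num) (mul_ne_zero h5 h8)
    have h10 : ((j : ℚ) + 1) ≠ 0 := by positivity
    have h11 : (6 * (j : ℚ) + 5) ≠ 0 := by positivity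
    rw [div_mul_div_comm, div_eq_div_iff (mul_ne_zero (mul_ne_zero h10 h11) h9)
      (mul_ne_zero (mul_ne_zero (mul_ne_zero h6 h5) h7) h8)]
    ring
  rw [sum_congr rfl fun k _ => e1 k, h]
  -- evaluate the product
  have e2 : ∏ j ∈ range n, ((4 / 3 + (j : ℚ)) * (5 / 6 - ((n : ℚ) + 2 / 3) + j)) /
      ((4 / 3 - ((n : ℚ) + 2 / 3) + j) * (5 / 6 + j)) =
      ((∏ j ∈ range n, (4 / 3 + (j : ℚ))) * (∏ j ∈ range n, (5 / 6 - ((n : ℚ) + 2 / 3) + j))) /
      ((∏ j ∈ range n, (4 / 3 - ((n : ℚ) + 2 / 3) + (j : ℚ))) * (∏ j ∈ range n, (5 / 6 + (j : ℚ)))) := by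
    rw [← prod_mul_distrib, ← prod_mul_distrib, ← prod_div_distrib]
  rw [e2]
  have e3 : ∏ j ∈ range n, (5 / 6 - ((n : ℚ) + 2 / 3) + (j : ℚ)) =
      (-1) ^ n * ∏ j ∈ range n, (5 / 6 + (j : ℚ)) := by
    rw [← prod_range_reflect, ← card_range n, ← prod_const, card_range, ← prod_mul_distrib]
    refine prod_congr rfl fun j hj => ?_
    have hj' : j < n := mem_range.mp hj
    have : ((n - 1 - j : ℕ) : ℚ) = (n : ℚ) - 1 - j := by
      rw [Nat.cast_sub (by omega), Nat.cast_sub (by omega)]; simp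
    rw [this]; ring
  have e4 : ∏ j ∈ range n, (4 / 3 - ((n : ℚ) + 2 / 3) + (j : ℚ)) =
      (-1) ^ n * ∏ j ∈ range n, (1 / 3 + (j : ℚ)) := by
    rw [← prod_range_reflect, ← card_range n, ← prod_const, card_range, ← prod_mul_distrib]
    refine prod_congr rfl fun j hj => ?_
    have hj' : j < n := mem_range.mp hj
    have : ((n - 1 - j : ℕ) : ℚ) = (n : ℚ) - 1 - j := by
      rw [Nat.cast_sub (by omega), Nat.cast_sub (by omega)]; simp
    rw [this]; ring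
  have e5 : ∏ j ∈ range n, (4 / 3 + (j : ℚ)) = (3 * n + 1) * ∏ j ∈ range n, (1 / 3 + (j : ℚ)) := by
    clear h e1 e2 e3 e4 hb
    induction n with
    | zero => simp
    | succ n ih =>
      rw [prod_range_succ, prod_range_succ, ih]
      push_cast
      ring
  have p1 : ∏ j ∈ range n, (1 / 3 + (j : ℚ)) ≠ 0 := prod_ne_zero_iff.mpr fun j _ => by positivity
  have p2 : ∏ j ∈ range n, (5 / 6 + (j : ℚ)) ≠ 0 := prod_ne_zero_iff.mpr fun j _ => by positivity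
  have p3 : ((-1 : ℚ)) ^ n ≠ 0 := by positivity
  rw [e3, e4, e5]
  field_simp

end Pool.Agent.Helper2.WP54
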